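import Pool.Agent.Helper91_ASD.Star
import Pool.Agent.Helper82_ASD.GPD
import Pool.Agent.Helper3_ASO.MUL

/-!
# Squad ASD: the terms of the sum over `u` (second part of W12A, W2A, W2X)
-/

open scoped BigOperators

set_option autoImplicit false

noncomputable section

namespace Pool.Agent.PP.SD.H91

open Pool.Agent.Helper51_AWC Pool.Agent.Helper79_WRA Pool.Agent.PP Pool.Agent.PP.KF
open Pool.Agent.PP.K9 Pool.Agent.PP.K9.H97 Pool.Agent.PP.H75 Pool.Agent.PP.T3 Pool.Agent.PP.SO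
open Pool.Agent.PP.SO.H82 (memC conj_of_mem mem_of_conj bh_cj)

attribute [local instance] Ideal.Quotient.field

section maps

variable {F V₀ G : Type} [CommGroup V₀] [Group G] {n : ℕ} {B : Bk F V₀ G}
  {L : Set (SO.SS n V₀)} {u : G}

theorem mem_UU : u ∈ UU B.i L ↔ ∀ s ∈ L, u * B.i s.2.2.2 * u⁻¹ = B.i s.2.2.1 := by
  refine forall₂_congr fun s _ => ?_
  constructor
  · intro h
    rw [mul_inv_eq_iff_eq_mul]
    conv_lhs => rw [h]
    rw [inv_mul_cancel_right]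
  · intro h
    rw [eq_mul_inv_iff_mul_eq, ← h, inv_mul_cancel_right]

theorem UU_fwd (hu : u ∈ UU B.i L) : ∀ v ∈ qL L, ∃ w ∈ pL L, u * B.i v * u⁻¹ = B.i w := by
  have hle : qL L ≤ ((pL L).map B.i).comap ((MulAut.conj u).toMonoidHom.comp B.i) := by
    unfold qL
    rw [Subgroup.closure_le]
    rintro q ⟨s, hs, rfl⟩
    exact ⟨s.2.2.1, Subgroup.subset_closure ⟨s, hs, rfl⟩, (mem_UU.1 hu s hs).symm⟩
  intro v hv
  obtain ⟨w, hw, hw2⟩ := hle hv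
  exact ⟨w, hw, hw2.symm⟩

theorem UU_bwd (hu : u ∈ UU B.i L) : ∀ w ∈ pL L, ∃ v ∈ qL L, u * B.i v * u⁻¹ = B.i w := by
  have hle : pL L ≤ ((qL L).map ((MulAut.conj u).toMonoidHom.comp B.i)).comap B.i := by
    unfold pL
    rw [Subgroup.closure_le]
    rintro p ⟨s, hs, rfl⟩
    exact ⟨s.2.2.2, Subgroup.subset_closure ⟨s, hs, rfl⟩, mem_UU.1 hu s hs⟩
  intro w hw
  obtain ⟨v, hv, hv2⟩ := hle hw
  exact ⟨v, hv, hv2⟩

theorem UU_C (hu : u ∈ UU B.i L) (y : G) :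
    y ∈ B.C (pL L) ↔ u⁻¹ * y * u ∈ B.C (qL L) := by
  rw [memC, memC]
  constructor
  · intro h v hv
    obtain ⟨w, hw, e⟩ := UU_fwd hu v hv
    have h1 := h w hw
    rw [← e] at h1
    have h2 : B.i v * (u⁻¹ * y * u) = u⁻¹ * (u * B.i v * u⁻¹ * y) * u := by group
    rw [h2, h1]
    group
  · intro h w hw
    obtain ⟨v, hv, e⟩ := UU_bwd hu w hw
    have h1 := h v hv
    rw [← e]
    have h2 : u * B.i v * u⁻¹ * y = u * (B.i v * (u⁻¹ * y * u)) * u⁻¹ := by group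
    rw [h2, h1]
    group

/-- `σ ∈ EL` acts on `qL` as every `u ∈ UU` -/
theorem EL_act {E₀ : Subgroup (MulAut V₀)} (hu : u ∈ UU B.i L) {σ : MulAut V₀}
    (hσ : σ ∈ EL E₀ L) : ∀ v ∈ qL L, u * B.i v * u⁻¹ = B.i (σ v) := by
  have hle : qL L ≤ ((MulAut.conj u).toMonoidHom.comp B.i).eqLocus
      (B.i.comp σ.toMonoidHom) := by
    unfold qL
    rw [Subgroup.closure_le]
    rintro q ⟨s, hs, rfl⟩
    change u * B.i s.2.2.2 * u⁻¹ = B.i (σ s.2.2.2)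
    rw [hσ.2 s hs, mem_UU.1 hu s hs]
  intro v hv
  exact hle hv

theorem EL_map {E₀ : Subgroup (MulAut V₀)} {σ : MulAut V₀} (hσ : σ ∈ EL E₀ L) :
    (qL L).map σ.toMonoidHom = pL L := by
  unfold qL pL
  rw [MonoidHom.map_closure]
  congr 1
  ext p
  constructor
  · rintro ⟨q, ⟨s, hs, rfl⟩, rfl⟩
    exact ⟨s, hs, (hσ.2 s hs).symm⟩
  · rintro ⟨s, hs, rfl⟩
    exact ⟨s.2.2.2, ⟨s, hs, rfl⟩, hσ.2 s hs⟩

/-- if `t` acts as `σ ∈ EL` then `UU = t C(qL)` -/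
theorem UU_eq {E₀ : Subgroup (MulAut V₀)} {σ : MulAut V₀} (hσ : σ ∈ EL E₀ L) {t : G}
    (ht : ∀ v, t * B.i v * t⁻¹ = B.i (σ v)) : u ∈ UU B.i L ↔ t⁻¹ * u ∈ B.C (qL L) := by
  constructor
  · intro hu
    apply mem_of_conj
    intro v hv
    have h1 := EL_act hu hσ v hv
    rw [← ht v] at h1
    have h2 : t⁻¹ * u * B.i v * (t⁻¹ * u)⁻¹ = t⁻¹ * (u * B.i v * u⁻¹) * t := by group
    rw [h2, h1]
    group
  · intro h
    rw [mem_UU]
    intro s hs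
    have hq : s.2.2.2 ∈ qL L := Subgroup.subset_closure ⟨s, hs, rfl⟩
    have h1 := conj_of_mem B h hq
    have h2 : u * B.i s.2.2.2 * u⁻¹ =
        t * (t⁻¹ * u * B.i s.2.2.2 * (t⁻¹ * u)⁻¹) * t⁻¹ := by group
    rw [h2, h1, ht, hσ.2 s hs]

/-- the groups generated by `κ` -/
theorem aL_sup (κ : V₀) (L : Set (SO.SS n V₀)) :
    aL κ L ⊔ Subgroup.zpowers κ = pL L ⊔ Subgroup.zpowers κ := by
  have hk : ∀ W : Subgroup V₀, κ ∈ W ⊔ Subgroup.zpowers κ := fun W =>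
    Subgroup.mem_sup_right (Subgroup.mem_zpowers κ)
  apply le_antisymm
  · rw [sup_le_iff]
    refine ⟨?_, le_sup_right⟩
    unfold aL
    rw [Subgroup.closure_le]
    rintro a ⟨s, hs, rfl⟩
    exact Subgroup.mul_mem _ (Subgroup.pow_mem _ (hk _) _)
      (Subgroup.mem_sup_left (Subgroup.subset_closure ⟨s, hs, rfl⟩))
  · rw [sup_le_iff]
    refine ⟨?_, le_sup_right⟩
    unfold pL
    rw [Subgroup.closure_le]
    rintro p ⟨s, hs, rfl⟩
    have h1 : κ ^ (s.2.1 : ℕ) * s.2.2.1 ∈ aL κ L ⊔ Subgroup.zpowers κ :=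
      Subgroup.mem_sup_left (Subgroup.subset_closure ⟨s, hs, rfl⟩)
    have h2 := Subgroup.mul_mem _
      (Subgroup.inv_mem _ (Subgroup.pow_mem _ (hk (aL κ L)) (s.2.1 : ℕ))) h1
    rw [inv_mul_cancel_left] at h2
    exact h2

end maps

section blk

variable {V₀ G : Type} [CommGroup V₀] [Group G] [Finite G] {n : ℕ} {ℓ : ℕ}
  {M : Ideal (integralClosure ℤ ℂ)} [M.IsMaximal] {E₀ : Subgroup (MulAut V₀)}
  {B : Bk (FF M) V₀ G} {L : Set (SO.SS n V₀)} {u : G}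

/-- the lifts of different blocks are orthogonal -/
theorem orth (hB : Sb ℓ M E₀ B) {W W' : Subgroup V₀} {w : G}
    (hC : ∀ x, x ∈ B.C W ↔ w⁻¹ * x * w ∈ B.C W') (h : H75.cj w (B.b W') ≠ B.b W) :
    mulF (bh B W) (H75.cj w (bh B W')) = 0 := by
  have := Fintype.ofFinite (B.C W)
  have hs1 : ∀ z, z ∉ B.C W → bh B W z = 0 := fun z hz => H10L.bh_supp B W z hz
  have hs2 : ∀ z, z ∉ B.C W → H75.cj w (bh B W') z = 0 := by
    intro z hz
    change bh B W' (w⁻¹ * z * w) = 0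
    apply H10L.bh_supp
    intro h
    exact hz ((hC z).2 h)
  have hbW : (fun t : B.C W => bh B W t) = eh M (fun t : B.C W => B.b W t) := by
    funext t
    unfold bh PP.ext0
    rw [dif_pos t.2]
  have hB1 : Bx (B.C W) (B.b W) := (hB.lb W).blk
  have hB2 : Bx (B.C W) (H75.cj w (B.b W')) := T3.H62.bx_cj hC (hB.lb W').blk
  apply eq_of_res (mulF_supp (B.C W) hs1 hs2) (fun _ _ => rfl)
  rw [mulF_res (B.C W) _ hs1, bh_cj hB hC, hbW]
  refine T3.H62.eh_orth hB1.blk.1 hB2.blk.1 ?_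
  rcases hB1.dich hB2 with h3 | h3
  · exact absurd h3.symm h
  · rw [← mulF_res (B.C W) (H75.cj w (B.b W')) hB1.supp, h3]
    rfl

/-- the term of `u` vanishes if `cj u (b q) ≠ b p` -/
theorem term_zero [Fact ℓ.Prime] (fcd : FcdStmt) (hM : (ℓ : integralClosure ℤ ℂ) ∈ M)
    (hℓ : ℓ ≠ 2) [Finite V₀] (hF : Fq ℓ V₀ E₀) (hB : Sb ℓ M E₀ B) (hu : u ∈ UU B.i L)
    (hb : H75.cj u (B.b (qL L)) ≠ B.b (pL L)) (c d : V₀) :
    mulF (fc B (pL L) c) (H75.cj u (fc B (qL L) d)) = 0 := by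
  have hC : ∀ x, x ∈ B.C (pL L) ↔ u⁻¹ * x * u ∈ B.C (qL L) := UU_C hu
  have h1 : mulF (fc B (pL L) c) (bh B (pL L)) = fc B (pL L) c :=
    funext ((fcd ℓ M hM V₀ G E₀ hF B hB (pL L)).2 c)
  have h2 : mulF (fc B (qL L) d) (bh B (qL L)) = fc B (qL L) d :=
    funext ((fcd ℓ M hM V₀ G E₀ hF B hB (qL L)).2 d)
  have h3 : H75.cj u (fc B (qL L) d) =
      mulF (H75.cj u (bh B (qL L))) (H75.cj u (fc B (qL L) d)) := by
    conv_lhs => rw [← h2]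
    rw [cj_mulF]
    refine mulF_comm_of (K := B.C (pL L)) ?_ ?_
    · intro x hx
      change fc B (qL L) d (u⁻¹ * x * u) = 0
      exact SO.H3.fc_supp B _ d _ fun h => hx ((hC x).2 h)
    · intro k hk
      funext x
      change bh B (qL L) (u⁻¹ * (k⁻¹ * x * k) * u) = bh B (qL L) (u⁻¹ * x * u)
      have hk' : (u⁻¹ * k * u)⁻¹ ∈ B.C (qL L) := (B.C (qL L)).inv_mem ((hC k).1 hk)
      have h4 := H10L.bh_conj B (qL L) _ hk' (u⁻¹ * x * u)
      rw [← h4]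
      congr 1
      group
  have h5 : mulF (bh B (pL L)) (H75.cj u (bh B (qL L))) = 0 := orth hB hC hb
  rw [h3]
  conv_lhs => rw [← h1]
  apply ma_injective
  rw [ma_mul, ma_mul, ma_mul, ma_zero]
  have h6 := congrArg ma h5
  rw [ma_mul, ma_zero] at h6
  rw [mul_assoc, ← mul_assoc (ma (bh B (pL L))), h6, zero_mul, mul_zero]

/-- the term of `u ∈ UU` if `EL` is not empty -/
theorem term_EL [Fact ℓ.Prime] (cjd : CjdStmt) (hM : (ℓ : integralClosure ℤ ℂ) ∈ M)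
    (hℓ : ℓ ≠ 2) [Finite V₀] (hF : Fq ℓ V₀ E₀) (hB : Sb ℓ M E₀ B) (hu : u ∈ UU B.i L)
    {σ : MulAut V₀} (hσ : σ ∈ EL E₀ L) (d : V₀) :
    H75.cj u (fc B (qL L) d) = fc B (pL L) (σ d) := by
  obtain ⟨t, htT, ht⟩ := hB.sur σ hσ.1
  have h1 : t⁻¹ * u ∈ B.C (qL L) := (UU_eq hσ ht).1 hu
  have h2 := (cjd ℓ M hM hℓ V₀ G E₀ hF B hB σ hσ.1 t htT ht (qL L)).2.2.2.2.1
  rw [EL_map hσ] at h2
  funext x
  have h3 := h2 d (t⁻¹ * x * t)
  have e1 : t * (t⁻¹ * x * t) * t⁻¹ = x := by group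
  rw [e1] at h3
  rw [h3]
  change fc B (qL L) d (u⁻¹ * x * u) = _
  have h4 := SO.H3.fc_cl B (qL L) d ⟨(t⁻¹ * u)⁻¹, (B.C (qL L)).inv_mem h1⟩ (t⁻¹ * x * t)
  rw [← h4]
  congr 1
  change _ = (t⁻¹ * u)⁻¹ * (t⁻¹ * x * t) * ((t⁻¹ * u)⁻¹)⁻¹
  group

/-- if `EL` is empty all terms vanish -/
theorem term_empty [Fact ℓ.Prime] (fcd : FcdStmt) (fud : FudStmt)
    (hM : (ℓ : integralClosure ℤ ℂ) ∈ M) (hℓ : ℓ ≠ 2) [Finite V₀] (hF : Fq ℓ V₀ E₀)
    (hB : Sb ℓ M E₀ B) (hu : u ∈ UU B.i L) (hE : EL E₀ L = ∅) (c d : V₀) :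
    mulF (fc B (pL L) c) (H75.cj u (fc B (qL L) d)) = 0 := by
  classical
  refine term_zero fcd hM hℓ hF hB hu (fun hb => ?_) c d
  have hf : ∀ v ∈ qL L, ∃ w ∈ pL L, u * B.i v * u⁻¹ = B.i w := UU_fwd hu
  obtain ⟨f, hf'⟩ : ∃ f : V₀ → V₀, ∀ v ∈ qL L, f v ∈ pL L ∧ u * B.i v * u⁻¹ = B.i (f v) := by
    refine ⟨fun v => if h : v ∈ qL L then (hf v h).choose else 1, fun v hv => ?_⟩
    simp only [dif_pos hv]
    exact (hf v hv).choose_spec
  obtain ⟨σ, hσ, hfσ, -⟩ := fud ℓ M hM V₀ G E₀ hF B hB (pL L) (qL L) u f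
    (fun v hv => (hf' v hv).2) (fun v hv => (hf' v hv).1) (fun w hw => by
      obtain ⟨v, hv, e⟩ := UU_bwd hu w hw
      refine ⟨v, hv, ?_⟩
      apply hB.inj
      rw [← (hf' v hv).2, e]) hb
  have hmem : σ ∈ EL E₀ L := by
    refine ⟨hσ, fun s hs => ?_⟩
    have hq : s.2.2.2 ∈ qL L := Subgroup.subset_closure ⟨s, hs, rfl⟩
    rw [← hfσ _ hq]
    apply hB.inj
    rw [← (hf' _ hq).2, mem_UU.1 hu s hs]
  rw [hE] at hmem
  exact hmem

omit [Finite G] [M.IsMaximal] in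
/-- the conditions for `κ = i(κ) s` -/
theorem cn_iff (κ : V₀) {m : ℕ} {g x y : G} (hg : g ^ m = B.i κ) :
    cn m B.i L g x y ↔ ∀ s ∈ L,
      B.i (κ ^ (s.2.1 : ℕ) * s.2.2.1) * x = x * B.i (κ ^ (s.2.1 : ℕ) * s.2.2.1) ∧
      y⁻¹ * B.i (κ ^ (s.2.1 : ℕ) * s.2.2.1) * y =
        B.i (κ ^ (s.2.1 : ℕ) * s.2.2.1) * (x ^ m) ^ (s.1 : ℕ) := by
  refine forall₂_congr fun s _ => ?_
  rw [hg, ← map_pow]
  obtain ⟨K, hK⟩ : ∃ K, K = B.i (κ ^ (s.2.1 : ℕ)) := ⟨_, rfl⟩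
  obtain ⟨P, hP⟩ : ∃ P, P = B.i s.2.2.1 := ⟨_, rfl⟩
  obtain ⟨X, hX⟩ : ∃ X, X = (x ^ m) ^ (s.1 : ℕ) := ⟨_, rfl⟩
  have hKP : K * P = P * K := by rw [hK, hP, ← map_mul, ← map_mul, mul_comm]
  rw [map_mul, ← hK, ← hP, ← hX]
  have h1 : K⁻¹ * x * K = P * x * P⁻¹ ↔ K * P * x = x * (K * P) := by
    constructor
    · intro h
      have h2 : x * K = K * (P * x * P⁻¹) := by rw [← h]; group
      have h3 : x * K * P = K * P * x := by rw [h2]; group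
      rw [← h3, mul_assoc]
    · intro h
      have h2 : x * K * P = K * P * x := by rw [h, mul_assoc]
      have h3 : x * K = K * P * x * P⁻¹ := by rw [← h2, mul_inv_cancel_right]
      rw [mul_assoc, h3]
      group
  have h2 : K⁻¹ * (y * X) * K = P * y * P⁻¹ ↔ y * X * (K * P) = K * P * y := by
    constructor
    · intro h
      have h2 : y * X * K = K * (P * y * P⁻¹) := by rw [← h]; group
      have h3 : y * X * K * P = K * P * y := by rw [h2]; group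
      rw [← h3, mul_assoc (y * X)]
    · intro h
      have h2 : y * X * K * P = K * P * y := by rw [← h, mul_assoc (y * X)]
      have h3 : y * X * K = K * P * y * P⁻¹ := by rw [← h2, mul_inv_cancel_right]
      rw [mul_assoc K⁻¹, h3]
      group
  rw [h1, h2]
  refine and_congr_right fun hx => ?_
  have hc : Commute (K * P) X := by
    rw [hX]
    exact (Commute.pow_right (Commute.pow_right hx m) _)
  constructor
  · intro h
    have h3 : y⁻¹ * (K * P) * y = X * (K * P) := by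
      rw [mul_assoc, ← h]
      group
    rw [h3, hc.eq]
  · intro h
    have h3 : K * P * y = y * (y⁻¹ * (K * P) * y) := by group
    rw [h3, h, hc.eq]
    group

/-- the sum with `fc` is `HK` -/
theorem sum_HK [Fact ℓ.Prime] [Fintype G] {n' m : ℕ} (hM : (ℓ : integralClosure ℤ ℂ) ∈ M)
    (hF : Fq ℓ V₀ E₀) (hB : Sb ℓ M E₀ B) (hPE : PE ℓ n' m G) (κ : V₀) :
    ∑ g, fc B (pL L) κ g * Rk m B.i L g = (Nat.card (B.C (pL L)) : ℂ) * HK B m κ L := by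
  rw [fc_Psi B (pL L) κ (Rk m B.i L) fun z hz g => Rk_conj m B.i L z g (comm_p B L hz)]
  unfold HK
  rw [aL_sup, finsum_eq_sum_of_fintype, mul_assoc]
  congr 2
  refine Finset.sum_congr rfl fun s _ => ?_
  by_cases hs : bh B (pL L ⊔ Subgroup.zpowers κ) s = 0
  · rw [hs, zero_mul, zero_mul]
  have hsC : s ∈ B.C (pL L ⊔ Subgroup.zpowers κ) := by
    by_contra h
    exact hs (H10L.bh_supp B _ s h)
  have hsR : Reg ℓ s := by
    by_contra h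
    exact hs (SD.H82.bh_sing hM hB _ s h)
  have hp : (B.i κ * s) ^ m = B.i κ := SD.H82.pow_m hF hPE
    (Subgroup.mem_sup_right (Subgroup.mem_zpowers κ)) hsC hsR
  congr 1
  unfold Rk
  congr 2
  ext w
  exact and_congr_right fun _ => cn_iff κ hp

end blk

end Pool.Agent.PP.SD.H91
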