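import Pool.Agent.ASD.Stmts8
import Pool.Agent.Helper75_PP.Transport

/-!
# Squad ASD, row LNN: the block of the normaliser of the defect group
-/

open scoped BigOperators

noncomputable section

namespace Pool.Agent.PP.SD.H91

open Pool.Agent.Helper51_AWC Pool.Agent.Helper79_WRA Pool.Agent.PP Pool.Agent.PP.KF
open Pool.Agent.PP.K9 Pool.Agent.PP.K9.H97 Pool.Agent.PP.H75 Pool.Agent.PP.T3 Pool.Agent.PP.SO

attribute [local instance] Ideal.Quotient.field

section gen

variable {G : Type} [Group G]

theorem cen_le_nor (V : Subgroup G) :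
    Subgroup.centralizer (V : Set G) ≤ Subgroup.normalizer (V : Set G) := by
  intro x hx
  rw [Subgroup.mem_normalizer_iff]
  intro h
  have key : ∀ y ∈ V, x * y * x⁻¹ = y := by
    intro y hy
    have := Subgroup.mem_centralizer_iff.1 hx y hy
    rw [← this, mul_inv_cancel_right]
  constructor
  · intro hh
    change x * h * x⁻¹ ∈ V
    rw [key h hh]
    exact hh
  · intro hh
    have hh' : x * h * x⁻¹ ∈ V := hh
    have h1 := key _ hh'
    have h2 : x * h * x⁻¹ = h := by
      have h3 : x * (x * h * x⁻¹) * x⁻¹ = x * h * x⁻¹ := h1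
      have h4 := mul_right_cancel h3
      exact mul_left_cancel h4
    change h ∈ V
    rw [← h2]
    exact hh'

theorem mem_cen_sub (V : Subgroup G) (t : Subgroup.normalizer (V : Set G)) :
    t ∈ Subgroup.centralizer
      ((V.subgroupOf (Subgroup.normalizer (V : Set G)) :
        Subgroup (Subgroup.normalizer (V : Set G))) : Set (Subgroup.normalizer (V : Set G))) ↔
    (t : G) ∈ Subgroup.centralizer (V : Set G) := by
  rw [Subgroup.mem_centralizer_iff, Subgroup.mem_centralizer_iff]
  constructor
  · intro h y hy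
    have hy' : y ∈ Subgroup.normalizer (V : Set G) := Subgroup.le_normalizer hy
    have := h ⟨y, hy'⟩ (Subgroup.mem_subgroupOf.2 hy)
    exact congrArg Subtype.val this
  · intro h y hy
    apply Subtype.ext
    exact h y (Subgroup.mem_subgroupOf.1 hy)

theorem cen_sub_normal (V : Subgroup G) : (Subgroup.centralizer
      ((V.subgroupOf (Subgroup.normalizer (V : Set G)) :
        Subgroup (Subgroup.normalizer (V : Set G))) :
          Set (Subgroup.normalizer (V : Set G)))).Normal := by
  constructor
  intro c hc g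
  rw [Subgroup.mem_centralizer_iff] at hc ⊢
  intro y hy
  have hn : (V.subgroupOf (Subgroup.normalizer (V : Set G))).Normal :=
    Subgroup.normal_in_normalizer
  have h1 : g⁻¹ * y * g ∈ V.subgroupOf (Subgroup.normalizer (V : Set G)) := by
    have := hn.conj_mem y hy g⁻¹
    rwa [inv_inv] at this
  have h2 := hc _ h1
  calc y * (g * c * g⁻¹) = g * ((g⁻¹ * y * g) * c) * g⁻¹ := by group
    _ = g * (c * (g⁻¹ * y * g)) * g⁻¹ := by rw [h2]
    _ = g * c * g⁻¹ * y := by group

variable {F : Type} [Field F]

/-- the stabiliser in the normaliser and the inertial group -/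
def stTg (V : Subgroup G) (γ : G → F)
    (h : ∀ x, x ∉ Subgroup.centralizer (V : Set G) → γ x = 0)
    [Finite (Subgroup.normalizer (V : Set G))] :
    st (fun t : Subgroup.normalizer (V : Set G) => γ t) ≃* Tg V γ where
  toFun x := ⟨x.1.1, x.1.2, by
    have hx := (cj_eq_iff x.1 (fun t : Subgroup.normalizer (V : Set G) => γ t)).1 x.2
    intro y
    by_cases hy : y ∈ Subgroup.normalizer (V : Set G)
    · exact hx ⟨y, hy⟩
    · rw [h y (fun hc => hy (cen_le_nor V hc))]
      apply h
      intro hc
      apply hy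
      have h1 := cen_le_nor V hc
      have h2 := Subgroup.mul_mem _ (Subgroup.mul_mem _ (Subgroup.inv_mem _ x.1.2) h1) x.1.2
      have h3 : (x.1.1)⁻¹ * (x.1.1 * y * (x.1.1)⁻¹) * x.1.1 = y := by group
      rwa [h3] at h2⟩
  invFun x := ⟨⟨x.1, x.2.1⟩, by
    refine (cj_eq_iff _ (fun t : Subgroup.normalizer (V : Set G) => γ t)).2 ?_
    intro y
    exact x.2.2 y.1⟩
  left_inv x := rfl
  right_inv x := rfl
  map_mul' x y := rfl

end gen

theorem lnn (lnt : LntStmt) (nvt : T3.NvtStmt) : LnnStmt := by
  intro ℓ _ M _ hM V₀ G _ _ _ _ E₀ B hB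
  have hF : GoodF ℓ (FF M) := H50.fld ℓ Fact.out M hM
  have hN := (nvt ℓ M hM G B.e B.i.range B.g hB.ld).1
  have hf : br (B.i.range.subgroupOf (Subgroup.normalizer (B.i.range : Set G)))
      (fun t : Subgroup.normalizer (B.i.range : Set G) => br B.i.range B.e t) =
      fun t : Subgroup.normalizer (B.i.range : Set G) => br B.i.range B.e t := by
    funext t
    unfold br
    by_cases ht : (t : G) ∈ Subgroup.centralizer (B.i.range : Set G)
    · rw [if_pos ((mem_cen_sub B.i.range t).2 ht)]
    · rw [if_neg (fun h => ht ((mem_cen_sub B.i.range t).1 h)), if_neg ht]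
  have hu := hN.und
  rw [hf] at hu
  have h1 := lnt ℓ (FF M) hF (Subgroup.normalizer (B.i.range : Set G)) _
    (cen_sub_normal B.i.range) _ hN.blk _ hN.gam hu
  rw [h1]
  exact cnt_equiv (stTg B.i.range B.g hB.ld.gam.supp) (fun t : Tg B.i.range B.g => B.g t)

end Pool.Agent.PP.SD.H91
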