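import Pool.Agent.ASO.DefsC

/-!
# Squad ASD: `W12` as a sum over the `u` (first part of W12A, W2A, W2X)
-/

open scoped BigOperators

set_option autoImplicit false

noncomputable section

namespace Pool.Agent.PP.SD.H91

open Pool.Agent.Helper51_AWC Pool.Agent.Helper79_WRA Pool.Agent.PP Pool.Agent.PP.KF
open Pool.Agent.PP.K9 Pool.Agent.PP.K9.H97 Pool.Agent.PP.H75 Pool.Agent.PP.T3 Pool.Agent.PP.SO

attribute [local instance] Ideal.Quotient.field

section count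

variable {V₀ G : Type} [CommGroup V₀] [Group G] {n : ℕ}

/-- the conditions for `(x, y)` with the commutator `κ` -/
def cn (m : ℕ) (ι : V₀ →* G) (L : Set (SO.SS n V₀)) (κ x y : G) : Prop :=
  ∀ s ∈ L, ((κ ^ m) ^ (s.2.1 : ℕ))⁻¹ * x * (κ ^ m) ^ (s.2.1 : ℕ) = ι s.2.2.1 * x * (ι s.2.2.1)⁻¹ ∧
    ((κ ^ m) ^ (s.2.1 : ℕ))⁻¹ * (y * (x ^ m) ^ (s.1 : ℕ)) * (κ ^ m) ^ (s.2.1 : ℕ) =
      ι s.2.2.1 * y * (ι s.2.2.1)⁻¹

/-- the pairs with the commutator `κ` and the conditions -/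
def Ps (m : ℕ) (ι : V₀ →* G) (L : Set (SO.SS n V₀)) (κ : G) : Set (G × G) :=
  {w | SO.kap w.1 w.2 = κ ∧ cn m ι L κ w.1 w.2}

/-- the number of the pairs -/
def Rk (m : ℕ) (ι : V₀ →* G) (L : Set (SO.SS n V₀)) (κ : G) : ℂ := ((Ps m ι L κ).ncard : ℂ)

/-- the elements `u` with `u q u⁻¹ = p` for all of `L` -/
def UU (ι : V₀ →* G) (L : Set (SO.SS n V₀)) : Set G :=
  {u | ∀ s ∈ L, u = ι s.2.2.1 * u * (ι s.2.2.2)⁻¹}

/-- a number as a sum -/
theorem ncard_sum {A : Type} [Fintype A] (T : Set A) [DecidablePred (· ∈ T)] :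
    (T.ncard : ℂ) = ∑ a, if a ∈ T then (1 : ℂ) else 0 := by
  classical
  have h1 : T = ((Finset.univ.filter (· ∈ T) : Finset A) : Set A) := by
    ext a
    simp
  rw [Finset.sum_boole]
  conv_lhs => rw [h1, Set.ncard_coe_finset]

open Classical in
/-- the number of the triples as a sum over `u` -/
theorem count [Fintype G] (m : ℕ) (ι : V₀ →* G) (L : Set (SO.SS n V₀)) (g h : G) :
    ({z : XX g h | ∀ s ∈ L,
      c12 m ι z.1.1 z.1.2.1 z.1.2.2 s.1 s.2.1 s.2.2.1 s.2.2.2}.ncard : ℂ) =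
      ∑ u : G, if u ∈ UU ι L then Rk m ι L (g * (u * h * u⁻¹)) else 0 := by
  obtain ⟨S, hS⟩ : ∃ S : Set (XX g h), S = {z : XX g h | ∀ s ∈ L,
      c12 m ι z.1.1 z.1.2.1 z.1.2.2 s.1 s.2.1 s.2.2.1 s.2.2.2} := ⟨_, rfl⟩
  obtain ⟨T, hT⟩ : ∃ T : Set (G × G × G), T = {w : G × G × G |
      w.1 * w.2.1 * w.1⁻¹ * w.2.1⁻¹ = g * (w.2.2 * h * w.2.2⁻¹) ∧ ∀ s ∈ L,
      c12 m ι w.1 w.2.1 w.2.2 s.1 s.2.1 s.2.2.1 s.2.2.2} := ⟨_, rfl⟩
  have h1 : (fun z : XX g h => (z.1 : G × G × G)) '' S = T := by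
    ext w
    rw [hS, hT]
    constructor
    · rintro ⟨z, hz, rfl⟩
      exact ⟨z.2, hz⟩
    · rintro ⟨hw1, hw2⟩
      exact ⟨⟨w, hw1⟩, hw2, rfl⟩
  have hinj : Function.Injective (fun z : XX g h => (z.1 : G × G × G)) :=
    fun a b hab => Subtype.ext hab
  rw [← hS, ← Set.ncard_image_of_injective S hinj, h1, ncard_sum]
  let e : G × (G × G) ≃ G × G × G :=
    { toFun := fun p => (p.2.1, p.2.2, p.1)
      invFun := fun w => (w.2.2, (w.1, w.2.1))
      left_inv := fun _ => rfl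
      right_inv := fun _ => rfl }
  rw [← e.sum_comp, Fintype.sum_prod_type]
  refine Finset.sum_congr rfl fun u _ => ?_
  have hiff : ∀ p : G × G, e (u, p) ∈ T ↔ u ∈ UU ι L ∧ p ∈ Ps m ι L (g * (u * h * u⁻¹)) := by
    intro p
    rw [hT]
    constructor
    · rintro ⟨h2, h3⟩
      have h2' : SO.kap p.1 p.2 = g * (u * h * u⁻¹) := h2
      refine ⟨fun s hs => (h3 s hs).2.2, h2', fun s hs => ?_⟩
      have h4 := (h3 s hs).1
      have h5 := (h3 s hs).2.1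
      change ((SO.kap p.1 p.2 ^ m) ^ (s.2.1 : ℕ))⁻¹ * p.1 * (SO.kap p.1 p.2 ^ m) ^ (s.2.1 : ℕ) =
        ι s.2.2.1 * p.1 * (ι s.2.2.1)⁻¹ at h4
      change ((SO.kap p.1 p.2 ^ m) ^ (s.2.1 : ℕ))⁻¹ * (p.2 * (p.1 ^ m) ^ (s.1 : ℕ)) *
        (SO.kap p.1 p.2 ^ m) ^ (s.2.1 : ℕ) = ι s.2.2.1 * p.2 * (ι s.2.2.1)⁻¹ at h5
      rw [h2'] at h4 h5
      exact ⟨h4, h5⟩
    · rintro ⟨h2, h3, h4⟩
      refine ⟨h3, fun s hs => ?_⟩
      obtain ⟨h5, h6⟩ := h4 s hs
      rw [← h3] at h5 h6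
      exact ⟨h5, h6, h2 s hs⟩
  by_cases hu : u ∈ UU ι L
  · rw [if_pos hu]
    unfold Rk
    rw [ncard_sum]
    refine Finset.sum_congr rfl fun p _ => ?_
    by_cases hp : p ∈ Ps m ι L (g * (u * h * u⁻¹))
    · rw [if_pos hp, if_pos ((hiff p).2 ⟨hu, hp⟩)]
    · rw [if_neg hp, if_neg fun h => hp ((hiff p).1 h).2]
  · rw [if_neg hu]
    refine Finset.sum_eq_zero fun p _ => ?_
    rw [if_neg fun h => hu ((hiff p).1 h).1]

theorem kap_conj (φ : G ≃* G) (x y : G) : SO.kap (φ x) (φ y) = φ (SO.kap x y) := by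
  unfold SO.kap
  simp only [map_mul, map_inv]

/-- conjugation with the elements which commute with all `p` -/
theorem Rk_conj (m : ℕ) (ι : V₀ →* G) (L : Set (SO.SS n V₀)) (z κ : G)
    (hz : ∀ s ∈ L, z * ι s.2.2.1 * z⁻¹ = ι s.2.2.1) :
    Rk m ι L (z * κ * z⁻¹) = Rk m ι L κ := by
  obtain ⟨φ, hφ⟩ : ∃ φ : G ≃* G, ∀ x, φ x = z * x * z⁻¹ := ⟨MulAut.conj z, fun x => rfl⟩
  have hp : ∀ s ∈ L, φ (ι s.2.2.1) = ι s.2.2.1 := fun s hs => by rw [hφ, hz s hs]
  have hcn : ∀ x y, cn m ι L (φ κ) (φ x) (φ y) ↔ cn m ι L κ x y := by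
    intro x y
    unfold cn
    refine forall₂_congr fun s hs => ?_
    constructor
    · rintro ⟨h1, h2⟩
      constructor
      · apply φ.injective
        simp only [map_mul, map_inv, map_pow, hp s hs]
        exact h1
      · apply φ.injective
        simp only [map_mul, map_inv, map_pow, hp s hs]
        exact h2
    · rintro ⟨h1, h2⟩
      have h3 := congrArg φ h1
      have h4 := congrArg φ h2
      simp only [map_mul, map_inv, map_pow, hp s hs] at h3 h4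
      exact ⟨h3, h4⟩
  have hP : (fun w : G × G => (φ w.1, φ w.2)) '' Ps m ι L κ = Ps m ι L (φ κ) := by
    ext w
    constructor
    · rintro ⟨w', ⟨h1, h2⟩, rfl⟩
      refine ⟨?_, (hcn _ _).2 h2⟩
      change SO.kap (φ w'.1) (φ w'.2) = φ κ
      rw [kap_conj, h1]
    · rintro ⟨h1, h2⟩
      refine ⟨(φ.symm w.1, φ.symm w.2), ⟨?_, ?_⟩, ?_⟩
      · apply φ.injective
        rw [← kap_conj]
        simpa using h1
      · apply (hcn _ _).1
        simpa using h2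
      · simp
  have hinj : Function.Injective (fun w : G × G => (φ w.1, φ w.2)) := by
    intro a b hab
    have h1 : φ a.1 = φ b.1 := congrArg Prod.fst hab
    have h2 : φ a.2 = φ b.2 := congrArg Prod.snd hab
    exact Prod.ext (φ.injective h1) (φ.injective h2)
  unfold Rk
  rw [← hφ, ← hP, Set.ncard_image_of_injective _ hinj]

theorem UU_move (ι : V₀ →* G) (L : Set (SO.SS n V₀)) (z z' u : G)
    (hz : ∀ s ∈ L, z * ι s.2.2.1 * z⁻¹ = ι s.2.2.1)
    (hz' : ∀ s ∈ L, z' * ι s.2.2.2 * z'⁻¹ = ι s.2.2.2) :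
    z * u * z'⁻¹ ∈ UU ι L ↔ u ∈ UU ι L := by
  refine forall₂_congr fun s hs => ?_
  have h1 : ι s.2.2.1 * z = z * ι s.2.2.1 := by
    conv_lhs => rw [← hz s hs]
    group
  have h2 : z'⁻¹ * (ι s.2.2.2)⁻¹ = (ι s.2.2.2)⁻¹ * z'⁻¹ := by
    have h3 : ι s.2.2.2 * z' = z' * ι s.2.2.2 := by
      conv_lhs => rw [← hz' s hs]
      group
    rw [← mul_inv_rev, h3, mul_inv_rev]
  have h4 : ι s.2.2.1 * (z * u * z'⁻¹) * (ι s.2.2.2)⁻¹ =
      z * (ι s.2.2.1 * u * (ι s.2.2.2)⁻¹) * z'⁻¹ := by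
    calc ι s.2.2.1 * (z * u * z'⁻¹) * (ι s.2.2.2)⁻¹
        = (ι s.2.2.1 * z) * u * (z'⁻¹ * (ι s.2.2.2)⁻¹) := by group
      _ = _ := by rw [h1, h2]; group
  rw [h4]
  constructor
  · intro h
    exact mul_left_cancel (mul_right_cancel h)
  · intro h
    rw [← h]

open Classical in
/-- the sum over `u` -/
def Th [Fintype G] (m : ℕ) (ι : V₀ →* G) (L : Set (SO.SS n V₀)) (g h : G) : ℂ :=
  ∑ u : G, if u ∈ UU ι L then Rk m ι L (g * (u * h * u⁻¹)) else 0

theorem Th_conj [Fintype G] (m : ℕ) (ι : V₀ →* G) (L : Set (SO.SS n V₀)) (z z' g h : G)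
    (hz : ∀ s ∈ L, z * ι s.2.2.1 * z⁻¹ = ι s.2.2.1)
    (hz' : ∀ s ∈ L, z' * ι s.2.2.2 * z'⁻¹ = ι s.2.2.2) :
    Th m ι L (z * g * z⁻¹) (z' * h * z'⁻¹) = Th m ι L g h := by
  unfold Th
  rw [← ((Equiv.mulLeft z).trans (Equiv.mulRight z'⁻¹)).sum_comp]
  refine Finset.sum_congr rfl fun u _ => ?_
  have e1 : ((Equiv.mulLeft z).trans (Equiv.mulRight z'⁻¹)) u = z * u * z'⁻¹ := rfl
  rw [e1]
  have h1 : z * g * z⁻¹ * (z * u * z'⁻¹ * (z' * h * z'⁻¹) * (z * u * z'⁻¹)⁻¹) =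
      z * (g * (u * h * u⁻¹)) * z⁻¹ := by group
  rw [h1, Rk_conj m ι L z _ hz]
  by_cases hu : u ∈ UU ι L
  · rw [if_pos hu, if_pos ((UU_move ι L z z' u hz hz').2 hu)]
  · rw [if_neg hu, if_neg fun h => hu ((UU_move ι L z z' u hz hz').1 h)]

end count

section blk

variable {V₀ G : Type} [CommGroup V₀] [Group G] [Finite G] {n : ℕ}
  {M : Ideal (integralClosure ℤ ℂ)} [M.IsMaximal]

/-- sums with `fc` and a function invariant under conjugation with `C W` -/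
theorem fc_Psi [Fintype G] (B : Bk (FF M) V₀ G) (W : Subgroup V₀) (c : V₀) (Ψ : G → ℂ)
    (hΨ : ∀ z ∈ B.C W, ∀ g, Ψ (z * g * z⁻¹) = Ψ g) :
    ∑ g, fc B W c g * Ψ g = (Nat.card (B.C W) : ℂ) *
      (Nat.card (B.C (W ⊔ Subgroup.zpowers c)) : ℂ)⁻¹ *
        ∑ s, bh B (W ⊔ Subgroup.zpowers c) s * Ψ (B.i c * s) := by
  classical
  have := Fintype.ofFinite (B.C W)
  have h1 : ∀ g, fc B W c g * Ψ g = (Nat.card (B.C (W ⊔ Subgroup.zpowers c)) : ℂ)⁻¹ *
      ∑ z : B.C W, bh B (W ⊔ Subgroup.zpowers c) ((B.i c)⁻¹ * ((z : G)⁻¹ * g * z)) * Ψ g := by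
    intro g
    unfold fc
    rw [finsum_eq_sum_of_fintype, mul_assoc, Finset.sum_mul]
  rw [Finset.sum_congr rfl fun g _ => h1 g, ← Finset.mul_sum, Finset.sum_comm]
  have h2 : ∀ z : B.C W,
      ∑ g, bh B (W ⊔ Subgroup.zpowers c) ((B.i c)⁻¹ * ((z : G)⁻¹ * g * z)) * Ψ g =
      ∑ s, bh B (W ⊔ Subgroup.zpowers c) s * Ψ (B.i c * s) := by
    intro z
    let e : G ≃ G :=
      { toFun := fun s => (z : G) * (B.i c * s) * (z : G)⁻¹
        invFun := fun g => (B.i c)⁻¹ * ((z : G)⁻¹ * g * z)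
        left_inv := fun s => by group
        right_inv := fun g => by group }
    rw [← e.sum_comp]
    refine Finset.sum_congr rfl fun s _ => ?_
    have e1 : e s = (z : G) * (B.i c * s) * (z : G)⁻¹ := rfl
    rw [e1, hΨ z z.2]
    congr 2
    group
  have h3 : (Finset.univ : Finset (B.C W)).card = Nat.card (B.C W) := by
    rw [Nat.card_eq_fintype_card]
    rfl
  rw [Finset.sum_congr rfl fun z _ => h2 z, Finset.sum_const, nsmul_eq_mul, h3]
  ring

omit [Finite G] [M.IsMaximal] in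
theorem comm_p (B : Bk (FF M) V₀ G) (L : Set (SO.SS n V₀)) {z : G} (hz : z ∈ B.C (pL L)) :
    ∀ s ∈ L, z * B.i s.2.2.1 * z⁻¹ = B.i s.2.2.1 := by
  intro s hs
  unfold Bk.C at hz
  rw [Subgroup.mem_centralizer_iff] at hz
  have h1 := hz (B.i s.2.2.1) ⟨s.2.2.1, Subgroup.subset_closure ⟨s, hs, rfl⟩, rfl⟩
  rw [← h1, mul_inv_cancel_right]

omit [Finite G] [M.IsMaximal] in
theorem comm_q (B : Bk (FF M) V₀ G) (L : Set (SO.SS n V₀)) {z : G} (hz : z ∈ B.C (qL L)) :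
    ∀ s ∈ L, z * B.i s.2.2.2 * z⁻¹ = B.i s.2.2.2 := by
  intro s hs
  unfold Bk.C at hz
  rw [Subgroup.mem_centralizer_iff] at hz
  have h1 := hz (B.i s.2.2.2) ⟨s.2.2.2, Subgroup.subset_closure ⟨s, hs, rfl⟩, rfl⟩
  rw [← h1, mul_inv_cancel_right]

open Classical in
/-- `W12` as a sum over the `u` -/
theorem star [Fintype G] (B : Bk (FF M) V₀ G) (m : ℕ) (c d : V₀) (L : Set (SO.SS n V₀)) :
    (Nat.card (B.C (pL L)) : ℂ) * Nat.card (B.C (qL L)) * W12 B m c d L =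
      ∑ u : G, if u ∈ UU B.i L then
        ∑ κ, mulF (fc B (pL L) c) (H75.cj u (fc B (qL L) d)) κ * Rk m B.i L κ else 0 := by
  -- left side
  have hW : W12 B m c d L = ((Nat.card (B.C (pL L ⊔ Subgroup.zpowers c)) : ℂ) *
      Nat.card (B.C (qL L ⊔ Subgroup.zpowers d)))⁻¹ *
      ∑ s, bh B (pL L ⊔ Subgroup.zpowers c) s * ∑ t, bh B (qL L ⊔ Subgroup.zpowers d) t *
        Th m B.i L (B.i c * s) (B.i d * t) := by
    unfold W12
    rw [finsum_eq_sum_of_fintype, Fintype.sum_prod_type]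
    congr 1
    refine Finset.sum_congr rfl fun s _ => ?_
    rw [Finset.mul_sum]
    refine Finset.sum_congr rfl fun t _ => ?_
    rw [← mul_assoc]
    congr 1
    exact count m B.i L _ _
  -- the sum with `fc`
  have h1 : ∑ g, fc B (pL L) c g * (∑ h, fc B (qL L) d h * Th m B.i L g h) =
      (Nat.card (B.C (pL L)) : ℂ) * Nat.card (B.C (qL L)) * W12 B m c d L := by
    have h2 : ∀ g, ∑ h, fc B (qL L) d h * Th m B.i L g h = (Nat.card (B.C (qL L)) : ℂ) *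
        (Nat.card (B.C (qL L ⊔ Subgroup.zpowers d)) : ℂ)⁻¹ *
        ∑ t, bh B (qL L ⊔ Subgroup.zpowers d) t * Th m B.i L g (B.i d * t) := by
      intro g
      refine fc_Psi B (qL L) d (Th m B.i L g) fun z hz h => ?_
      have h3 := Th_conj m B.i L 1 z g h (fun s _ => by group) (comm_q B L hz)
      rw [one_mul, inv_one, mul_one] at h3
      exact h3
    have h3 : ∑ g, fc B (pL L) c g * (∑ t, bh B (qL L ⊔ Subgroup.zpowers d) t *
        Th m B.i L g (B.i d * t)) = (Nat.card (B.C (pL L)) : ℂ) *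
      (Nat.card (B.C (pL L ⊔ Subgroup.zpowers c)) : ℂ)⁻¹ *
        ∑ s, bh B (pL L ⊔ Subgroup.zpowers c) s * ∑ t, bh B (qL L ⊔ Subgroup.zpowers d) t *
          Th m B.i L (B.i c * s) (B.i d * t) := by
      refine fc_Psi B (pL L) c (fun g => ∑ t, bh B (qL L ⊔ Subgroup.zpowers d) t *
        Th m B.i L g (B.i d * t)) fun z hz g => ?_
      refine Finset.sum_congr rfl fun t _ => ?_
      have h4 := Th_conj m B.i L z 1 g (B.i d * t) (comm_p B L hz) (fun s _ => by group)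
      rw [one_mul, inv_one, mul_one] at h4
      rw [h4]
    calc ∑ g, fc B (pL L) c g * (∑ h, fc B (qL L) d h * Th m B.i L g h)
        = (Nat.card (B.C (qL L)) : ℂ) * (Nat.card (B.C (qL L ⊔ Subgroup.zpowers d)) : ℂ)⁻¹ *
          ∑ g, fc B (pL L) c g * (∑ t, bh B (qL L ⊔ Subgroup.zpowers d) t *
            Th m B.i L g (B.i d * t)) := by
          rw [Finset.mul_sum]
          refine Finset.sum_congr rfl fun g _ => ?_
          rw [h2]
          ring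
      _ = _ := by
          rw [h3, hW, mul_inv]
          ring
  rw [← h1]
  -- exchange of the sums
  unfold Th
  have h2 : ∀ g, fc B (pL L) c g * (∑ h, fc B (qL L) d h *
      ∑ u : G, (if u ∈ UU B.i L then Rk m B.i L (g * (u * h * u⁻¹)) else 0)) =
      ∑ u : G, if u ∈ UU B.i L then
        ∑ h, fc B (pL L) c g * (fc B (qL L) d h * Rk m B.i L (g * (u * h * u⁻¹))) else 0 := by
    intro g
    have h3 : ∀ h, fc B (qL L) d h *
        ∑ u : G, (if u ∈ UU B.i L then Rk m B.i L (g * (u * h * u⁻¹)) else 0) =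
        ∑ u : G, if u ∈ UU B.i L then fc B (qL L) d h * Rk m B.i L (g * (u * h * u⁻¹)) else 0 := by
      intro h
      rw [Finset.mul_sum]
      refine Finset.sum_congr rfl fun u _ => ?_
      rw [mul_ite, mul_zero]
    rw [Finset.sum_congr rfl fun h _ => h3 h, Finset.sum_comm, Finset.mul_sum]
    refine Finset.sum_congr rfl fun u _ => ?_
    by_cases hu : u ∈ UU B.i L
    · simp only [if_pos hu]
      rw [Finset.mul_sum]
    · simp only [if_neg hu, Finset.sum_const_zero, mul_zero]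
  rw [Finset.sum_congr rfl fun g _ => h2 g, Finset.sum_comm]
  refine Finset.sum_congr rfl fun u _ => ?_
  by_cases hu : u ∈ UU B.i L
  · simp only [if_pos hu]
    have h4 : ∀ κ, mulF (fc B (pL L) c) (H75.cj u (fc B (qL L) d)) κ * Rk m B.i L κ =
        ∑ g, fc B (pL L) c g * (fc B (qL L) d (u⁻¹ * (g⁻¹ * κ) * u) * Rk m B.i L κ) := by
      intro κ
      unfold mulF
      rw [finsum_eq_sum_of_fintype, Finset.sum_mul]
      refine Finset.sum_congr rfl fun g _ => ?_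
      rw [mul_assoc]
      rfl
    have h5 : ∑ κ, mulF (fc B (pL L) c) (H75.cj u (fc B (qL L) d)) κ * Rk m B.i L κ =
        ∑ g, ∑ κ, fc B (pL L) c g *
          (fc B (qL L) d (u⁻¹ * (g⁻¹ * κ) * u) * Rk m B.i L κ) := by
      rw [Finset.sum_congr rfl fun κ _ => h4 κ]
      exact Finset.sum_comm
    rw [h5]
    refine Finset.sum_congr rfl fun g _ => ?_
    let e : G ≃ G :=
      { toFun := fun h => g * (u * h * u⁻¹)
        invFun := fun κ => u⁻¹ * (g⁻¹ * κ) * u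
        left_inv := fun h => by group
        right_inv := fun κ => by group }
    rw [← e.sum_comp (fun κ => fc B (pL L) c g *
      (fc B (qL L) d (u⁻¹ * (g⁻¹ * κ) * u) * Rk m B.i L κ))]
    refine Finset.sum_congr rfl fun h _ => ?_
    have e1 : e h = g * (u * h * u⁻¹) := rfl
    have e2 : u⁻¹ * (g⁻¹ * (g * (u * h * u⁻¹))) * u = h := by group
    rw [e1, e2]
  · simp only [if_neg hu, Finset.sum_const_zero]

end blk

end Pool.Agent.PP.SD.H91
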