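import Pool.Agent.Helper91_ASD.Fib

/-!
# Squad ASD, row W2A: `W12` in terms of the numbers `HK`
-/

open scoped BigOperators

set_option autoImplicit false

noncomputable section

namespace Pool.Agent.PP.SD.H91

open Pool.Agent.Helper51_AWC Pool.Agent.Helper79_WRA Pool.Agent.PP Pool.Agent.PP.KF
open Pool.Agent.PP.K9 Pool.Agent.PP.K9.H97 Pool.Agent.PP.H75 Pool.Agent.PP.T3 Pool.Agent.PP.SO

attribute [local instance] Ideal.Quotient.field

/-- W2A -/
theorem w2a (fcd : FcdStmt) (fud : FudStmt) (cjd : CjdStmt) (mud : MudStmt) (rwd : RwdStmt) :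
    W2aStmt := by
  intro ℓ _ M _ hM hℓ V₀ G _ _ _ _ E₀ hF B hB n m hPE c d L
  classical
  have := Fintype.ofFinite G
  have hn1 : (Nat.card (B.C (pL L)) : ℂ) ≠ 0 := by
    exact_mod_cast (Nat.card_pos (α := B.C (pL L))).ne'
  have hn2 : (Nat.card (B.C (qL L)) : ℂ) ≠ 0 := by
    exact_mod_cast (Nat.card_pos (α := B.C (qL L))).ne'
  have hst := star B m c d L
  have hzero : (∀ u ∈ UU B.i L, mulF (fc B (pL L) c) (H75.cj u (fc B (qL L) d)) = 0) →
      W12 B m c d L = 0 := by
    intro h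
    have h1 : (Nat.card (B.C (pL L)) : ℂ) * Nat.card (B.C (qL L)) * W12 B m c d L = 0 := by
      rw [hst]
      refine Finset.sum_eq_zero fun u _ => ?_
      by_cases hu : u ∈ UU B.i L
      · rw [if_pos hu, h u hu]
        refine Finset.sum_eq_zero fun κ _ => ?_
        rw [Pi.zero_apply, zero_mul]
      · rw [if_neg hu]
    rcases mul_eq_zero.1 h1 with h2 | h2
    · exact absurd h2 (mul_ne_zero hn1 hn2)
    · exact h2
  have hempty : EL E₀ L = ∅ → W12 B m c d L = 0 := fun hE =>
    hzero fun u hu => term_empty fcd fud hM hℓ hF hB hu hE c d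
  refine ⟨fun hp hq => ?_, fun _ hE => hempty hE, fun hSd hRw => ?_⟩
  · refine hzero fun u hu => ?_
    exfalso
    apply hq
    rw [eq_bot_iff]
    unfold qL
    rw [Subgroup.closure_le]
    rintro q ⟨s, hs, rfl⟩
    have h1 := mem_UU.1 hu s hs
    have h2 : s.2.2.1 ∈ pL L := Subgroup.subset_closure ⟨s, hs, rfl⟩
    rw [hp, Subgroup.mem_bot] at h2
    rw [h2, map_one, mul_inv_eq_one] at h1
    have h3 : B.i s.2.2.2 = B.i 1 := by
      rw [map_one]
      exact mul_eq_left.1 h1
    exact hB.inj h3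
  · rcases Set.eq_empty_or_nonempty (EL E₀ L) with hE | ⟨σ, hσ⟩
    · rw [hempty hE, hE, finsum_mem_empty]
    have hmap := EL_map hσ
    have hRq : Rw E₀ (qL L) := by
      rw [← hmap] at hRw
      exact ((rwd ℓ V₀ E₀ hF).2.1 σ hσ.1 (qL L)).1 hRw
    have hE1 : EL E₀ L = {σ} := by
      ext τ
      constructor
      · intro hτ
        refine (rwd ℓ V₀ E₀ hF).2.2.2.1 (qL L) hRq τ hτ.1 σ hσ.1 ?_
        have hle : qL L ≤ τ.toMonoidHom.eqLocus σ.toMonoidHom := by
          unfold qL
          rw [Subgroup.closure_le]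
          rintro q ⟨s, hs, rfl⟩
          change τ s.2.2.2 = σ s.2.2.2
          rw [hτ.2 s hs, hσ.2 s hs]
        intro v hv
        exact hle hv
      · rintro rfl
        exact hσ
    rw [hE1, finsum_mem_singleton]
    obtain ⟨t, -, ht⟩ := hB.sur σ hσ.1
    -- the terms
    have hterm : ∀ u ∈ UU B.i L,
        ∑ κ, mulF (fc B (pL L) c) (H75.cj u (fc B (qL L) d)) κ * Rk m B.i L κ =
        ((ux B.U (pL L) c * ux B.U (pL L) (σ d) / ux B.U (pL L) (c * σ d) : ℚ) : ℂ) *
          ((Nat.card (B.C (pL L)) : ℂ) * HK B m (c * σ d) L) := by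
      intro u hu
      rw [term_EL cjd hM hℓ hF hB hu hσ d, ← sum_HK hM hF hB hPE, Finset.mul_sum]
      refine Finset.sum_congr rfl fun κ _ => ?_
      rw [mud ℓ M hM hℓ V₀ G E₀ hF B hSd (pL L) hRw c (σ d) κ, mul_assoc]
    -- the number of the `u`
    have hcard : (Finset.univ.filter (· ∈ UU B.i L)).card = Nat.card (B.C (qL L)) := by
      rw [← Fintype.card_subtype, ← Nat.card_eq_fintype_card]
      refine Nat.card_congr
        { toFun := fun u => ⟨t⁻¹ * u, (UU_eq hσ ht).1 u.2⟩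
          invFun := fun x => ⟨t * x, (UU_eq hσ ht).2 (by rw [inv_mul_cancel_left]; exact x.2)⟩
          left_inv := fun u => Subtype.ext (mul_inv_cancel_left t u)
          right_inv := fun x => Subtype.ext (inv_mul_cancel_left t x) }
    have h1 : (Nat.card (B.C (pL L)) : ℂ) * Nat.card (B.C (qL L)) * W12 B m c d L =
        (Nat.card (B.C (pL L)) : ℂ) * Nat.card (B.C (qL L)) *
        (((ux B.U (pL L) c * ux B.U (pL L) (σ d) / ux B.U (pL L) (c * σ d) : ℚ) : ℂ) *
          HK B m (c * σ d) L) := by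
      rw [hst, ← Finset.sum_filter]
      rw [Finset.sum_congr rfl fun u hu => hterm u (Finset.mem_filter.1 hu).2,
        Finset.sum_const, nsmul_eq_mul, hcard]
      ring
    exact mul_left_cancel₀ (mul_ne_zero hn1 hn2) h1

end Pool.Agent.PP.SD.H91
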